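import Pool.Agent.Lib.MP_c82047_co80.Cnt.Ineq

/-!
# Leaves
-/

namespace Pool.Agent.Lib.MP_c82047_co80.Cnt

open Finset Pool.Agent.Lib.MP_c82047_co97

variable {V : Type*} [DecidableEq V]

/-- the number of triples of `E` through `v` -/
def dg (E : Finset (Finset V)) (v : V) : ℕ := (E.filter fun a => v ∈ a).card

/-- the points of `N` on exactly one triple of `E` -/
def leaf (E : Finset (Finset V)) (N : Finset V) : Finset V := N.filter fun v => dg E v = 1

open Classical in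
/-- the rims with hub `v` -/
noncomputable def rims (R : Finset V → Finset V → Prop) (E : Finset (Finset V)) (v : V) :
    Finset (Finset V) :=
  E.filter fun r => ∃ a ∈ E, ∃ b ∈ E, ∃ c ∈ E, (v ∈ a ∧ v ∈ b ∧ v ∈ c) ∧ Wh R a b c r

theorem sum_distinct_le {α : Type*} [DecidableEq α] {A : Finset α} (hA : A.card ≤ 3) :
    ∑ a ∈ A, ∑ b ∈ A, ∑ c ∈ A, (if a ≠ b ∧ a ≠ c ∧ b ≠ c then (1 : ℤ) else 0) ≤ 6 := by
  have h1 : ∀ a ∈ A, ∀ b ∈ A, ∑ c ∈ A, (if a ≠ b ∧ a ≠ c ∧ b ≠ c then (1 : ℤ) else 0)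
      ≤ if a ≠ b then 1 else 0 := by
    intro a ha b hb
    by_cases hab : a = b
    · simp [hab]
    · rw [if_pos hab, ← sum_filter, sum_const, nsmul_eq_mul, mul_one]
      have h2 : (A.filter fun c => a ≠ b ∧ a ≠ c ∧ b ≠ c) ⊆ (A.erase a).erase b := by
        intro c hc
        rw [mem_filter] at hc
        rw [mem_erase, mem_erase]
        exact ⟨fun h => hc.2.2.2 h.symm, fun h => hc.2.2.1 h.symm, hc.1⟩
      have h3 := card_le_card h2
      rw [card_erase_of_mem (mem_erase.2 ⟨fun h => hab h.symm, hb⟩), card_erase_of_mem ha] at h3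
      have : (A.filter fun c => a ≠ b ∧ a ≠ c ∧ b ≠ c).card ≤ 1 := by omega
      exact_mod_cast this
  have h2 : ∀ a ∈ A, ∑ b ∈ A, ∑ c ∈ A, (if a ≠ b ∧ a ≠ c ∧ b ≠ c then (1 : ℤ) else 0) ≤ 2 := by
    intro a ha
    refine (sum_le_sum (h1 a ha)).trans ?_
    rw [← sum_filter, sum_const, nsmul_eq_mul, mul_one]
    have h3 : (A.filter fun b => a ≠ b) ⊆ A.erase a := by
      intro c hc
      rw [mem_filter] at hc
      rw [mem_erase]
      exact ⟨fun h => hc.2 h.symm, hc.1⟩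
    have h4 := card_le_card h3
    rw [card_erase_of_mem ha] at h4
    have : (A.filter fun b => a ≠ b).card ≤ 2 := by omega
    exact_mod_cast this
  refine (sum_le_sum h2).trans ?_
  rw [sum_const, nsmul_eq_mul]
  have : (A.card : ℤ) ≤ 3 := by exact_mod_cast hA
  linarith

omit [DecidableEq V] in
theorem sum5_comm {N : Finset V} {E : Finset (Finset V)}
    (f : V → Finset V → Finset V → Finset V → Finset V → ℤ) :
    ∑ v ∈ N, ∑ r ∈ E, ∑ a ∈ E, ∑ b ∈ E, ∑ c ∈ E, f v r a b c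
      = ∑ a ∈ E, ∑ b ∈ E, ∑ c ∈ E, ∑ r ∈ E, ∑ v ∈ N, f v r a b c := by
  rw [sum_comm]
  calc ∑ r ∈ E, ∑ v ∈ N, ∑ a ∈ E, ∑ b ∈ E, ∑ c ∈ E, f v r a b c
      = ∑ r ∈ E, ∑ a ∈ E, ∑ b ∈ E, ∑ c ∈ E, ∑ v ∈ N, f v r a b c := by
        refine sum_congr rfl fun r _ => ?_
        rw [sum_comm]
        refine sum_congr rfl fun a _ => ?_
        rw [sum_comm]
        refine sum_congr rfl fun b _ => ?_
        rw [sum_comm]
    _ = ∑ a ∈ E, ∑ b ∈ E, ∑ c ∈ E, ∑ r ∈ E, ∑ v ∈ N, f v r a b c := by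
        rw [sum_comm]
        refine sum_congr rfl fun a _ => ?_
        rw [sum_comm]
        refine sum_congr rfl fun b _ => ?_
        rw [sum_comm]

open Classical in
theorem whN_le {H : Finset (Finset V)} (hH : Lin H) {R : Finset V → Finset V → Prop}
    {N : Finset V} {E : Finset (Finset V)} (hR : Own E R) (hE : E ⊆ H) (hEN : ∀ f ∈ E, f ⊆ N) :
    whN R E ≤ 6 * ∑ v ∈ N, ((rims R E v).card : ℤ) := by
  have h1 : whN R E ≤ ∑ v ∈ N, ∑ r ∈ E, ∑ a ∈ E, ∑ b ∈ E, ∑ c ∈ E,
      (if (v ∈ a ∧ v ∈ b ∧ v ∈ c) ∧ Wh R a b c r then (1 : ℤ) else 0) := by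
    unfold whN
    have e1 : ∑ v ∈ N, ∑ r ∈ E, ∑ a ∈ E, ∑ b ∈ E, ∑ c ∈ E,
        (if (v ∈ a ∧ v ∈ b ∧ v ∈ c) ∧ Wh R a b c r then (1 : ℤ) else 0)
        = ∑ a ∈ E, ∑ b ∈ E, ∑ c ∈ E, ∑ r ∈ E, ∑ v ∈ N,
        (if (v ∈ a ∧ v ∈ b ∧ v ∈ c) ∧ Wh R a b c r then (1 : ℤ) else 0) := by
      exact sum5_comm _
    rw [e1]
    refine sum_le_sum fun a ha => sum_le_sum fun b _ => sum_le_sum fun c _ =>
      sum_le_sum fun r _ => ?_
    split_ifs with h
    · obtain ⟨v, hv⟩ := h.1
      simp only [mem_inter] at hv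
      refine le_trans ?_ (single_le_sum (f := fun v =>
        (if (v ∈ a ∧ v ∈ b ∧ v ∈ c) ∧ Wh R a b c r then (1 : ℤ) else 0))
        (fun w _ => by split_ifs <;> norm_num) (hEN a ha hv.1.1))
      rw [if_pos ⟨⟨hv.1.1, hv.1.2, hv.2⟩, h⟩]
    · exact sum_nonneg fun w _ => by split_ifs <;> norm_num
  refine h1.trans ?_
  rw [mul_sum]
  refine sum_le_sum fun v _ => ?_
  have h2 : ∑ r ∈ E, ∑ a ∈ E, ∑ b ∈ E, ∑ c ∈ E,
      (if (v ∈ a ∧ v ∈ b ∧ v ∈ c) ∧ Wh R a b c r then (1 : ℤ) else 0)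
      ≤ ∑ r ∈ E, if r ∈ rims R E v then (6 : ℤ) else 0 := by
    refine sum_le_sum fun r hr => ?_
    by_cases hrv : r ∈ rims R E v
    · rw [if_pos hrv]
      rw [rims, mem_filter] at hrv
      obtain ⟨-, a0, ha0, b0, hb0, c0, hc0, hv0, hw0⟩ := hrv
      have hvr : v ∉ r := rim_not_mem hw0 hv0.1 hv0.2.1
      set A : Finset (Finset V) := E.filter fun a => v ∈ a ∧ (a ∩ r).Nonempty with hA
      have hA3 : A.card ≤ 3 := by
        rw [← hH.1 r (hE hr)]
        refine card_le_card_of_injOn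
          (fun a => if h : (a ∩ r).Nonempty then h.choose else v) ?_ ?_
        · intro a ha
          rw [mem_coe, hA, mem_filter] at ha
          simp only [ha.2.2, dif_pos]
          exact (mem_inter.1 ha.2.2.choose_spec).2
        · intro a ha b hb hab
          rw [mem_coe, hA, mem_filter] at ha hb
          simp only [ha.2.2, hb.2.2, dif_pos] at hab
          have ha' := mem_inter.1 ha.2.2.choose_spec
          have hb' := mem_inter.1 hb.2.2.choose_spec
          rw [← hab] at hb'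
          exact lin_eq hH (hE ha.1) (hE hb.1)
            (fun h : ha.2.2.choose = v => hvr (h ▸ ha'.2)) ha'.1 ha.2.1 hb'.1 hb.2.1
      refine le_trans ?_ (sum_distinct_le hA3)
      have hAE : A ⊆ E := filter_subset _ _
      have key : ∀ a ∈ E, ∀ b ∈ E, ∀ c ∈ E, ((v ∈ a ∧ v ∈ b ∧ v ∈ c) ∧ Wh R a b c r) →
          a ∈ A ∧ b ∈ A ∧ c ∈ A ∧ a ≠ b ∧ a ≠ c ∧ b ≠ c := by
        intro a ha b hb c hc h
        rw [hA, mem_filter, mem_filter, mem_filter]
        exact ⟨⟨ha, h.1.1, hR.meet _ _ h.2.2.1.2.1⟩, ⟨hb, h.1.2.1, hR.meet _ _ h.2.2.1.2.2.1⟩,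
          ⟨hc, h.1.2.2, hR.meet _ _ h.2.2.2.1.2.2.1⟩, hR.ne _ _ h.2.2.1.1,
          hR.ne _ _ h.2.2.2.1.1, hR.ne _ _ h.2.2.2.2.1⟩
      -- restrict the sums to `A`
      have r1 : ∑ a ∈ E, ∑ b ∈ E, ∑ c ∈ E,
          (if (v ∈ a ∧ v ∈ b ∧ v ∈ c) ∧ Wh R a b c r then (1 : ℤ) else 0)
          = ∑ a ∈ A, ∑ b ∈ A, ∑ c ∈ A,
          (if (v ∈ a ∧ v ∈ b ∧ v ∈ c) ∧ Wh R a b c r then (1 : ℤ) else 0) := by
        rw [← sum_subset hAE (fun a ha hna => ?_)]
        · refine sum_congr rfl fun a ha => ?_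
          rw [← sum_subset hAE (fun b hb hnb => ?_)]
          · refine sum_congr rfl fun b hb => ?_
            rw [← sum_subset hAE (fun c hc hnc => ?_)]
            exact if_neg fun h => hnc (key a (hAE ha) b (hAE hb) c hc h).2.2.1
          · exact sum_eq_zero fun c hc => if_neg fun h => hnb (key a (hAE ha) b hb c hc h).2.1
        · exact sum_eq_zero fun b hb => sum_eq_zero fun c hc =>
            if_neg fun h => hna (key a ha b hb c hc h).1
      rw [r1]
      refine sum_le_sum fun a ha => sum_le_sum fun b hb => sum_le_sum fun c hc => ?_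
      by_cases h : (v ∈ a ∧ v ∈ b ∧ v ∈ c) ∧ Wh R a b c r
      · rw [if_pos h, if_pos (key a (hAE ha) b (hAE hb) c (hAE hc) h).2.2.2]
      · rw [if_neg h]; split_ifs <;> norm_num
    · rw [if_neg hrv]
      refine le_of_eq (sum_eq_zero fun a ha => sum_eq_zero fun b hb => sum_eq_zero fun c hc => ?_)
      refine if_neg fun h => hrv ?_
      rw [rims, mem_filter]
      exact ⟨hr, a, ha, b, hb, c, hc, h⟩
  refine h2.trans (le_of_eq ?_)
  rw [← sum_filter, sum_const, nsmul_eq_mul, mul_comm]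
  congr 3
  ext r
  rw [mem_filter]
  constructor
  · exact fun h => h.2
  · intro h
    exact ⟨(mem_filter.1 h).1, h⟩

theorem rims_le {H : Finset (Finset V)} (hH : Lin H) {R : Finset V → Finset V → Prop}
    {N : Finset V} {E : Finset (Finset V)} (hR : Own E R) (hE : E ⊆ H) (hEN : ∀ f ∈ E, f ⊆ N)
    (hsp : ∀ P ⊆ N, 4 ≤ P.card → Pool.Agent.Lib.MP_c82047_co97.e H P + 3 ≤ P.card)
    {v : V} (hv : 1 ≤ dg E v) :
    ((rims R E v).card : ℤ) ≤ dg E v - 2 + if dg E v = 1 then 1 else 0 := by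
  classical
  rcases Nat.eq_zero_or_pos (rims R E v).card with h0 | h0
  · rw [h0]
    split_ifs with h
    · rw [h]; norm_num
    · have : 2 ≤ dg E v := by omega
      have : (2 : ℤ) ≤ dg E v := by exact_mod_cast this
      simp only [Nat.cast_zero, add_zero]; linarith
  · obtain ⟨r0, hr0⟩ := card_pos.1 h0
    rw [rims, mem_filter] at hr0
    obtain ⟨hr0E, a, ha, b, hb, c, hc, hvabc, hw⟩ := hr0
    have hab : a ≠ b := hR.ne _ _ hw.2.1.1
    have hac : a ≠ c := hR.ne _ _ hw.2.2.1.1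
    have hbc : b ≠ c := hR.ne _ _ hw.2.2.2.1
    have hcard3 : ({a, b, c} : Finset (Finset V)).card = 3 := by
      rw [card_insert_of_notMem, card_insert_of_notMem, card_singleton]
      · simpa using hbc
      · simp [hab, hac]
    set S := E.filter (fun a => v ∈ a) with hS
    have h3 : 3 ≤ S.card := by
      rw [← hcard3]
      refine card_le_card fun f hf => ?_
      simp only [mem_insert, mem_singleton] at hf
      rw [hS, mem_filter]
      rcases hf with rfl | rfl | rfl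
      exacts [⟨ha, hvabc.1⟩, ⟨hb, hvabc.2.1⟩, ⟨hc, hvabc.2.2⟩]
    have hSE : S ⊆ E := filter_subset _ _
    have h4 := star_card hH (v := v) (hSE.trans hE) (fun f hf => (mem_filter.1 hf).2)
      (card_pos.1 (by omega))
    have h5 := hsp (S.biUnion id) (by
      intro w hw
      rw [mem_biUnion] at hw
      obtain ⟨f, hf, hw⟩ := hw
      exact hEN f (hSE hf) hw) (by omega)
    have h6 : S.card + (rims R E v).card ≤
        Pool.Agent.Lib.MP_c82047_co97.e H (S.biUnion id) := by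
      have hdis : Disjoint S (rims R E v) := by
        rw [disjoint_left]
        intro f hf hf'
        rw [rims, mem_filter] at hf'
        obtain ⟨-, a', -, b', -, c', -, hv', hw'⟩ := hf'
        exact rim_not_mem hw' hv'.1 hv'.2.1 (mem_filter.1 hf).2
      rw [← card_union_of_disjoint hdis]
      refine card_le_card fun f hf => ?_
      rw [mem_union] at hf
      rw [mem_filter]
      rcases hf with hf | hf
      · exact ⟨hE (hSE hf), subset_biUnion_of_mem id hf⟩
      · rw [rims, mem_filter] at hf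
        obtain ⟨hfE, a', ha', b', hb', c', hc', hv', hw'⟩ := hf
        refine ⟨hE hfE, (rim_subset hH hE hR hw' (hE hfE)).trans ?_⟩
        refine union_subset (union_subset ?_ ?_) ?_
        · exact subset_biUnion_of_mem id (mem_filter.2 ⟨ha', hv'.1⟩ : a' ∈ S)
        · exact subset_biUnion_of_mem id (mem_filter.2 ⟨hb', hv'.2.1⟩ : b' ∈ S)
        · exact subset_biUnion_of_mem id (mem_filter.2 ⟨hc', hv'.2.2⟩ : c' ∈ S)
    have h7 : dg E v = S.card := rfl
    have h8 : (rims R E v).card + 2 ≤ dg E v := by omega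
    have h9 : ((rims R E v).card : ℤ) + 2 ≤ dg E v := by exact_mod_cast h8
    split_ifs <;> linarith

theorem sum_dg {E : Finset (Finset V)} {N : Finset V} (h3 : ∀ f ∈ E, f.card = 3)
    (hEN : ∀ f ∈ E, f ⊆ N) : ∑ v ∈ N, dg E v = 3 * E.card := by
  unfold dg
  simp_rw [card_filter]
  rw [sum_comm]
  have : ∀ f ∈ E, ∑ v ∈ N, (if v ∈ f then 1 else 0) = 3 := by
    intro f hf
    rw [← card_filter, ← h3 f hf]
    congr 1
    ext v
    rw [mem_filter]
    exact ⟨fun h => h.2, fun h => ⟨hEN f hf h, h⟩⟩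
  rw [sum_congr rfl this, sum_const, smul_eq_mul, mul_comm]

/-- (R2) -/
theorem ineq2 {H : Finset (Finset V)} (hH : Lin H) {R : Finset V → Finset V → Prop}
    {N : Finset V} {E : Finset (Finset V)} (hR : Own E R) (hE : E ⊆ H) (hEN : ∀ f ∈ E, f ⊆ N)
    (hsp : ∀ P ⊆ N, 4 ≤ P.card → Pool.Agent.Lib.MP_c82047_co97.e H P + 3 ≤ P.card)
    (hdeg : ∀ v ∈ N, 1 ≤ dg E v) (hcard : E.card + 3 = N.card)
    (hI2 : 6 * ((N.card : ℤ) - 3) ≤ 6 * chN R E - 3 * trN R E + whN R E) :
    12 - 2 * ((leaf E N).card : ℤ) ≤ 2 * chN R E - trN R E := by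
  have h1 := whN_le hH hR hE hEN
  have h2 : ∑ v ∈ N, ((rims R E v).card : ℤ)
      ≤ ∑ v ∈ N, ((dg E v : ℤ) - 2 + if dg E v = 1 then 1 else 0) :=
    sum_le_sum fun v hv => rims_le hH hR hE hEN hsp (hdeg v hv)
  have h3 : ∑ v ∈ N, ((dg E v : ℤ) - 2 + if dg E v = 1 then 1 else 0)
      = 3 * (E.card : ℤ) - 2 * N.card + (leaf E N).card := by
    rw [sum_add_distrib, sum_sub_distrib, ← Nat.cast_sum,
      sum_dg (fun f hf => hH.1 f (hE hf)) hEN, sum_const, leaf, card_filter]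
    push_cast
    ring
  have h4 : (E.card : ℤ) + 3 = N.card := by exact_mod_cast hcard
  rw [h3] at h2
  linarith

/-- A triple in a loose triangle has at most one leaf. -/
theorem leaf_le_one {H : Finset (Finset V)} (hH : Lin H) {R : Finset V → Finset V → Prop}
    {N : Finset V} {E : Finset (Finset V)} (hR : Own E R) (hE : E ⊆ H)
    {f b c : Finset V} (hf : f ∈ E) (hb : b ∈ E) (hc : c ∈ E) (ht : Tr R f b c) :
    (f ∩ leaf E N).card ≤ 1 := by
  obtain ⟨p, hp⟩ := hR.meet _ _ ht.1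
  obtain ⟨q, hq⟩ := hR.meet _ _ ht.2.1
  rw [mem_inter] at hp hq
  have hpq : p ≠ q := by
    rintro rfl
    have : p ∈ f ∩ b ∩ c := by simp [hp.1, hp.2, hq.2]
    rw [ht.2.2.2] at this; simp at this
  have hnl : ∀ w : V, ∀ g ∈ E, g ≠ f → w ∈ f → w ∈ g → w ∉ leaf E N := by
    intro w g hg hgf hwf hwg hl
    rw [leaf, mem_filter, dg, card_eq_one] at hl
    obtain ⟨-, a, ha⟩ := hl
    have h1 : f ∈ ({a} : Finset (Finset V)) := by rw [← ha, mem_filter]; exact ⟨hf, hwf⟩
    have h2 : g ∈ ({a} : Finset (Finset V)) := by rw [← ha, mem_filter]; exact ⟨hg, hwg⟩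
    rw [mem_singleton] at h1 h2
    exact hgf (h2.trans h1.symm)
  have h1 : f ∩ leaf E N ⊆ (f.erase p).erase q := by
    intro w hw
    rw [mem_inter] at hw
    rw [mem_erase, mem_erase]
    refine ⟨?_, ?_, hw.1⟩
    · rintro rfl
      exact hnl w c hc (fun h => hR.ne _ _ ht.2.1 h.symm) hw.1 hq.2 hw.2
    · rintro rfl
      exact hnl w b hb (fun h => hR.ne _ _ ht.1 h.symm) hw.1 hp.2 hw.2
  have h2 := card_le_card h1
  rw [card_erase_of_mem (mem_erase.2 ⟨hpq.symm, hq.1⟩), card_erase_of_mem hp.1,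
    hH.1 f (hE hf)] at h2
  exact h2

/-- If there are at least four leaves and every triple has at most one, some triple has none. -/
theorem exists_core {H : Finset (Finset V)} (hH : Lin H) {N : Finset V}
    {E : Finset (Finset V)} (hE : E ⊆ H) (hEN : ∀ f ∈ E, f ⊆ N)
    (h1 : ∀ f ∈ E, (f ∩ leaf E N).card ≤ 1) (hcard : E.card + 3 = N.card)
    (h4 : 4 ≤ (leaf E N).card) : ∃ f ∈ E, f ∩ leaf E N = ∅ := by
  by_contra hno
  push Not at hno
  have h2 : ∀ f ∈ E, (f ∩ leaf E N).card = 1 := by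
    intro f hf
    have := card_pos.2 (hno f hf)
    have := h1 f hf
    omega
  -- the number of leaves is the number of triples
  have h3 : (leaf E N).card = E.card := by
    have e1 : ∑ w ∈ leaf E N, dg E w = (leaf E N).card := by
      rw [card_eq_sum_ones]
      exact sum_congr rfl fun w hw => (mem_filter.1 hw).2
    have e2 : ∑ w ∈ leaf E N, dg E w = ∑ f ∈ E, (f ∩ leaf E N).card := by
      unfold dg
      simp_rw [card_filter]
      rw [sum_comm]
      refine sum_congr rfl fun f _ => ?_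
      rw [← card_filter]
      congr 1
      ext w
      rw [mem_filter, mem_inter]
      tauto
    rw [← e1, e2, sum_congr rfl h2, ← card_eq_sum_ones]
  have hlN : leaf E N ⊆ N := filter_subset _ _
  have h5 : (N \ leaf E N).card = 3 := by
    rw [card_sdiff_of_subset hlN]; omega
  have h6 : E.card ≤ ((N \ leaf E N).powersetCard 2).card := by
    refine card_le_card_of_injOn (fun f => f \ leaf E N) ?_ ?_
    · intro f hf
      rw [mem_coe] at hf
      rw [mem_coe, mem_powersetCard]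
      refine ⟨sdiff_subset_sdiff (hEN f hf) subset_rfl, ?_⟩
      show (f \ leaf E N).card = 2
      have := card_sdiff_add_card_inter f (leaf E N)
      rw [h2 f hf, hH.1 f (hE hf)] at this
      omega
    · intro f hf g hg hfg
      rw [mem_coe] at hf hg
      simp only at hfg
      have hc : (f \ leaf E N).card = 2 := by
        have := card_sdiff_add_card_inter f (leaf E N)
        rw [h2 f hf, hH.1 f (hE hf)] at this
        omega
      obtain ⟨p, q, hpq, hs⟩ := card_eq_two.1 hc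
      have hp : p ∈ f \ leaf E N := by rw [hs]; simp
      have hq : q ∈ f \ leaf E N := by rw [hs]; simp
      have hp' : p ∈ g \ leaf E N := hfg ▸ hp
      have hq' : q ∈ g \ leaf E N := hfg ▸ hq
      rw [mem_sdiff] at hp hq hp' hq'
      exact lin_eq hH (hE hf) (hE hg) hpq hp.1 hq.1 hp'.1 hq'.1
  rw [card_powersetCard, h5] at h6
  have : Nat.choose 3 2 = 3 := by decide
  omega

end Pool.Agent.Lib.MP_c82047_co80.Cnt
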