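import Pool.Agent.Lib.MP_c82047_co80.Cnt.Step

/-!
# The two consequences of the counts
-/

namespace Pool.Agent.Lib.MP_c82047_co80.Cnt

open Finset Pool.Agent.Lib.MP_c82047_co97

variable {V : Type*} [DecidableEq V]

open Classical in
/-- the third spokes of the hub pair `a, b` -/
noncomputable def spk (R : Finset V → Finset V → Prop) (E : Finset (Finset V))
    (a b : Finset V) : Finset (Finset V) := E.filter fun c => ∃ r ∈ E, Wh R a b c r

/-- spokes of a wheel meet the rim in different points, which are all its points -/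
theorem rim_subset {H : Finset (Finset V)} (hH : Lin H) {R : Finset V → Finset V → Prop}
    {E : Finset (Finset V)} (hE : E ⊆ H) (hR : Own E R) {a b c r : Finset V} (h : Wh R a b c r) (hr : r ∈ H) : r ⊆ a ∪ b ∪ c := by
  obtain ⟨⟨v, hv⟩, h1, h2, h3⟩ := h
  simp only [mem_inter] at hv
  have hab : a ≠ b := hR.ne _ _ h1.1
  have hac : a ≠ c := hR.ne _ _ h2.1
  have hbc : b ≠ c := hR.ne _ _ h3.1
  have ha := hE (hR.mem _ _ h1.1)
  have hb := hE (hR.mem _ _ h3.1)
  have hc := hE (hR.mem _ _ (hR.symm _ _ h3.1))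
  obtain ⟨p, hp⟩ := hR.meet _ _ h1.2.1
  obtain ⟨q, hq⟩ := hR.meet _ _ h1.2.2.1
  obtain ⟨s, hs⟩ := hR.meet _ _ h3.2.2.1
  rw [mem_inter] at hp hq hs
  have e1 : a ∩ b ∩ r = ∅ := h1.2.2.2
  have e2 : a ∩ c ∩ r = ∅ := h2.2.2.2
  have e3 : b ∩ c ∩ r = ∅ := h3.2.2.2
  have hpq : p ≠ q := by
    rintro rfl
    have : p ∈ a ∩ b ∩ r := by simp [hp.1, hq.1, hp.2]
    rw [e1] at this; simp at this
  have hps : p ≠ s := by
    rintro rfl
    have : p ∈ a ∩ c ∩ r := by simp [hp.1, hs.1, hp.2]
    rw [e2] at this; simp at this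
  have hqs : q ≠ s := by
    rintro rfl
    have : q ∈ b ∩ c ∩ r := by simp [hq.1, hs.1, hq.2]
    rw [e3] at this; simp at this
  have hsub : ({p, q, s} : Finset V) ⊆ r := by
    intro w hw
    simp only [mem_insert, mem_singleton] at hw
    rcases hw with rfl | rfl | rfl
    exacts [hp.2, hq.2, hs.2]
  have hcard : ({p, q, s} : Finset V).card = 3 := by
    rw [card_insert_of_notMem, card_insert_of_notMem, card_singleton]
    · simpa using hqs
    · simp [hpq, hps]
  have heq : ({p, q, s} : Finset V) = r := eq_of_subset_of_card_le hsub (by rw [hcard, hH.1 r hr])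
  rw [← heq]
  intro w hw
  simp only [mem_insert, mem_singleton] at hw
  rcases hw with rfl | rfl | rfl
  · simp [hp.1]
  · simp [hq.1]
  · simp [hs.1]

theorem rim_not_mem {R : Finset V → Finset V → Prop}
    {a b c r : Finset V} (h : Wh R a b c r) {v : V} (ha : v ∈ a) (hb : v ∈ b) : v ∉ r := by
  intro hr
  have e1 : a ∩ b ∩ r = ∅ := h.2.1.2.2.2
  have : v ∈ a ∩ b ∩ r := by simp [ha, hb, hr]
  rw [e1] at this; simp at this

/-- Two different rims over the same three spokes would give 7 points and 5 triples. -/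
theorem rim_unique {H : Finset (Finset V)} (hH : Lin H) {R : Finset V → Finset V → Prop}
    {E : Finset (Finset V)} (hE : E ⊆ H) (hR : Own E R) {N : Finset V}
    (hsp : ∀ P ⊆ N, 4 ≤ P.card → Pool.Agent.Lib.MP_c82047_co97.e H P + 3 ≤ P.card)
    {a b c r r' : Finset V} (haN : a ⊆ N) (hbN : b ⊆ N) (hcN : c ⊆ N) (hr : r ∈ H) (hr' : r' ∈ H)
    (h : Wh R a b c r) (h' : Wh R a b c r') : r = r' := by
  by_contra hne
  obtain ⟨v, hv⟩ := h.1
  simp only [mem_inter] at hv
  have h1 := h.2.1
  have h2 := h.2.2.1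
  have h3 := h.2.2.2
  have hab : a ≠ b := hR.ne _ _ h1.1
  have hac : a ≠ c := hR.ne _ _ h2.1
  have hbc : b ≠ c := hR.ne _ _ h3.1
  have ha := hE (hR.mem _ _ h1.1)
  have hb := hE (hR.mem _ _ h3.1)
  have hc := hE (hR.mem _ _ (hR.symm _ _ h3.1))
  have hF : ({a, b, c} : Finset (Finset V)) ⊆ H := by
    intro f hf
    simp only [mem_insert, mem_singleton] at hf
    rcases hf with rfl | rfl | rfl <;> assumption
  have hcard3 : ({a, b, c} : Finset (Finset V)).card = 3 := by
    rw [card_insert_of_notMem, card_insert_of_notMem, card_singleton]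
    · simpa using hbc
    · simp [hab, hac]
  have hs := star_card hH (v := v) hF (by
    intro f hf
    simp only [mem_insert, mem_singleton] at hf
    rcases hf with rfl | rfl | rfl
    exacts [hv.1.1, hv.1.2, hv.2]) ⟨a, by simp⟩
  have hun : ({a, b, c} : Finset (Finset V)).biUnion id = a ∪ b ∪ c := by
    simp [biUnion_insert, union_assoc]
  rw [hcard3, hun] at hs
  have h5 := hsp (a ∪ b ∪ c) (union_subset (union_subset haN hbN) hcN) (by omega)
  have h6 : 5 ≤ Pool.Agent.Lib.MP_c82047_co97.e H (a ∪ b ∪ c) := by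
    have hra : ∀ f, v ∈ f → f ≠ r := fun f hf hfr => rim_not_mem h hv.1.1 hv.1.2 (hfr ▸ hf)
    have hra' : ∀ f, v ∈ f → f ≠ r' := fun f hf hfr => rim_not_mem h' hv.1.1 hv.1.2 (hfr ▸ hf)
    have h7 : ({a, b, c, r, r'} : Finset (Finset V)).card = 5 := by
      rw [card_insert_of_notMem, card_insert_of_notMem, card_insert_of_notMem,
        card_insert_of_notMem, card_singleton]
      · simpa using hne
      · simp [hra c hv.2, hra' c hv.2]
      · simp [hbc, hra b hv.1.2, hra' b hv.1.2]
      · simp [hab, hac, hra a hv.1.1, hra' a hv.1.1]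
    rw [← h7]
    refine card_le_card fun f hf => ?_
    simp only [mem_insert, mem_singleton] at hf
    rw [mem_filter]
    rcases hf with rfl | rfl | rfl | rfl | rfl
    · exact ⟨ha, fun w hw => by simp [hw]⟩
    · exact ⟨hb, fun w hw => by simp [hw]⟩
    · exact ⟨hc, fun w hw => by simp [hw]⟩
    · exact ⟨hr, rim_subset hH hE hR h hr⟩
    · exact ⟨hr', rim_subset hH hE hR h' hr'⟩
  omega

open Classical in
/-- (R1) -/
theorem ineq1 {H : Finset (Finset V)} (hH : Lin H) {R : Finset V → Finset V → Prop}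
    {N : Finset V} {E : Finset (Finset V)} (hR : Own E R) (hE : E ⊆ H) (hEN : ∀ f ∈ E, f ⊆ N)
    (hsp : ∀ P ⊆ N, 4 ≤ P.card → Pool.Agent.Lib.MP_c82047_co97.e H P + 3 ≤ P.card)
    (hI1 : 6 ≤ 3 * chN R E - 2 * trN R E + whN R E) :
    12 ≤ 4 * (2 * chN R E - trN R E)
      + ∑ a ∈ E, ∑ b ∈ E, ((spk R E a b).offDiag.card : ℤ) := by
  -- wheels are counted by the third spokes
  have h1 : whN R E = ∑ a ∈ E, ∑ b ∈ E, ((spk R E a b).card : ℤ) := by
    unfold whN
    refine sum_congr rfl fun a ha => sum_congr rfl fun b hb => ?_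
    rw [spk, card_filter]
    push_cast
    refine sum_congr rfl fun c hc => ?_
    split_ifs with h
    · obtain ⟨r, hr, hw⟩ := h
      rw [sum_eq_single_of_mem r hr, if_pos hw]
      intro r' hr' hne
      refine if_neg fun hw' => hne ?_
      exact rim_unique hH hE hR hsp (hEN a ha) (hEN b hb) (hEN c hc) (hE hr') (hE hr) hw' hw
    · exact sum_eq_zero fun r hr => if_neg fun hw => h ⟨r, hr, hw⟩
  have h2 : ∀ a ∈ E, ∀ b ∈ E, ¬ R a b → spk R E a b = ∅ := by
    intro a _ b _ h
    rw [spk, filter_eq_empty_iff]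
    rintro c _ ⟨r, _, hw⟩
    exact h hw.2.1.1
  have h3 : chN R E - whN R E ≥
      - ∑ a ∈ E, ∑ b ∈ E, (((spk R E a b).card : ℤ) * (((spk R E a b).card : ℤ) - 1)) / 2 := by
    rw [h1, chN, ← sum_sub_distrib, ← sum_neg_distrib]
    refine sum_le_sum fun a ha => ?_
    rw [← sum_sub_distrib, ← sum_neg_distrib]
    refine sum_le_sum fun b hb => ?_
    by_cases h : R a b
    · rw [if_pos h]
      set q : ℤ := ((spk R E a b).card : ℤ)
      have hq : 0 ≤ q := Int.natCast_nonneg _
      have h4 : 2 * (q - 1) ≤ q * (q - 1) := by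
        rcases le_or_gt q 0 with h0 | h0
        · have : q = 0 := le_antisymm h0 hq
          rw [this]; norm_num
        · rcases le_or_gt q 1 with h5 | h5
          · have : q = 1 := by omega
            rw [this]; norm_num
          · nlinarith
      have h5 : q - 1 ≤ q * (q - 1) / 2 := by
        rw [Int.le_ediv_iff_mul_le (by norm_num)]; linarith
      linarith
    · rw [if_neg h, h2 a ha b hb h]; simp
  have h6 : ∀ a b, 2 * ((((spk R E a b).card : ℤ) * (((spk R E a b).card : ℤ) - 1)) / 2)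
      = ((spk R E a b).offDiag.card : ℤ) := by
    intro a b
    rw [offDiag_card]
    have h7 : (spk R E a b).card ≤ (spk R E a b).card * (spk R E a b).card := Nat.le_mul_self _
    push_cast [Nat.cast_sub h7]
    set q : ℤ := ((spk R E a b).card : ℤ)
    have : 2 ∣ q * (q - 1) := by
      have := Int.even_mul_pred_self q
      exact this.two_dvd
    rw [Int.mul_ediv_cancel' this]; ring
  have h7 : ∑ a ∈ E, ∑ b ∈ E, ((spk R E a b).offDiag.card : ℤ)
      = 2 * ∑ a ∈ E, ∑ b ∈ E, (((spk R E a b).card : ℤ) * (((spk R E a b).card : ℤ) - 1)) / 2 := by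
    rw [mul_sum]
    refine sum_congr rfl fun a _ => ?_
    rw [mul_sum]
    exact sum_congr rfl fun b _ => (h6 a b).symm
  rw [h7]
  linarith

end Pool.Agent.Lib.MP_c82047_co80.Cnt
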