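import Pool.Agent.Lib.MP_c82047_co97.Hull

/-!
# Counting the points of two stars of triples
-/

namespace Pool.Agent.Lib.MP_c82047_co80.Cnt

open Finset Pool.Agent.Lib.MP_c82047_co97

variable {V : Type*} [DecidableEq V]

/-- Two triples of a linear system with two common points are equal. -/
theorem lin_eq {H : Finset (Finset V)} (hH : Lin H) {a b : Finset V} (ha : a ∈ H) (hb : b ∈ H)
    {x y : V} (hxy : x ≠ y) (hxa : x ∈ a) (hya : y ∈ a) (hxb : x ∈ b) (hyb : y ∈ b) : a = b := by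
  by_contra h
  have h1 := hH.2 a ha b hb h
  have h2 : 1 < (a ∩ b).card :=
    Finset.one_lt_card.2 ⟨x, Finset.mem_inter.2 ⟨hxa, hxb⟩, y, Finset.mem_inter.2 ⟨hya, hyb⟩, hxy⟩
  omega

/-- `q` triples through `v` cover `2 q + 1` points. -/
theorem star_card {H : Finset (Finset V)} (hH : Lin H) {v : V} {F : Finset (Finset V)}
    (hF : F ⊆ H) (hv : ∀ f ∈ F, v ∈ f) (hne : F.Nonempty) :
    (F.biUnion id).card = 1 + 2 * F.card := by
  have h1 : F.biUnion id = insert v (F.biUnion fun f => f.erase v) := by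
    ext z
    simp only [mem_biUnion, id, mem_insert, mem_erase]
    constructor
    · rintro ⟨f, hf, hz⟩
      by_cases h : z = v
      · exact Or.inl h
      · exact Or.inr ⟨f, hf, h, hz⟩
    · rintro (rfl | ⟨f, hf, -, hz⟩)
      · obtain ⟨f, hf⟩ := hne
        exact ⟨f, hf, hv f hf⟩
      · exact ⟨f, hf, hz⟩
  have h2 : (F.biUnion fun f => f.erase v).card = ∑ f ∈ F, (f.erase v).card := by
    refine card_biUnion ?_
    intro a ha b hb hab
    rw [Function.onFun, disjoint_left]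
    intro z hza hzb
    rw [mem_erase] at hza hzb
    exact hab (lin_eq hH (hF ha) (hF hb) hza.1 hza.2 (hv a ha) hzb.2 (hv b hb))
  have h3 : ∑ f ∈ F, (f.erase v).card = ∑ _f ∈ F, 2 := by
    refine sum_congr rfl fun f hf => ?_
    rw [card_erase_of_mem (hv f hf), hH.1 f (hF hf)]
  rw [h1, card_insert_of_notMem, h2, h3, sum_const, smul_eq_mul]
  · ring
  · simp

/-- The meeting pairs of two stars with centres not covered by a triple of the other star. -/
theorem meet_card {H : Finset (Finset V)} (hH : Lin H) {y z : V} {A B : Finset (Finset V)}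
    (hA : A ⊆ H) (hB : B ⊆ H) (hyA : ∀ f ∈ A, y ∈ f) (hzA : ∀ f ∈ A, z ∉ f)
    (hzB : ∀ f ∈ B, z ∈ f) (hyB : ∀ f ∈ B, y ∉ f) :
    ((A ×ˢ B).filter fun p => (p.1 ∩ p.2).Nonempty).card
      ≤ (A.biUnion id ∩ B.biUnion id).card := by
  classical
  refine card_le_card_of_injOn
    (fun p => if h : (p.1 ∩ p.2).Nonempty then h.choose else y) ?_ ?_
  · intro p hp
    simp only [coe_filter, mem_product, Set.mem_ofPred_eq] at hp
    simp only [hp.2, dif_pos, coe_inter, coe_biUnion, Set.mem_inter_iff, Set.mem_iUnion, id,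
      mem_coe]
    have := hp.2.choose_spec
    rw [mem_inter] at this
    exact ⟨⟨p.1, hp.1.1, this.1⟩, ⟨p.2, hp.1.2, this.2⟩⟩
  · intro p hp q hq hpq
    simp only [coe_filter, mem_product, Set.mem_ofPred_eq] at hp hq
    simp only [hp.2, hq.2, dif_pos] at hpq
    have h1 := hp.2.choose_spec
    have h2 := hq.2.choose_spec
    rw [← hpq] at h2
    rw [mem_inter] at h1 h2
    have hne1 : hp.2.choose ≠ y := fun h => hyB p.2 hp.1.2 (h ▸ h1.2)
    have hne2 : hp.2.choose ≠ z := fun h => hzA p.1 hp.1.1 (h ▸ h1.1)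
    exact Prod.ext
      (lin_eq hH (hA hp.1.1) (hA hq.1.1) hne1 h1.1 (hyA _ hp.1.1) h2.1 (hyA _ hq.1.1))
      (lin_eq hH (hB hp.1.2) (hB hq.1.2) hne2 h1.2 (hzB _ hp.1.2) h2.2 (hzB _ hq.1.2))

/-- If the union `P` of two stars is sparse, then there are fewer meeting pairs than triples. -/
theorem meet_lt {H : Finset (Finset V)} (hH : Lin H) {y z : V} {A B : Finset (Finset V)}
    (hA : A ⊆ H) (hB : B ⊆ H) (hyA : ∀ f ∈ A, y ∈ f) (hzA : ∀ f ∈ A, z ∉ f)
    (hzB : ∀ f ∈ B, z ∈ f) (hyB : ∀ f ∈ B, y ∉ f) (hAne : A.Nonempty) (hBne : B.Nonempty)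
    (hsp : e H ((A ∪ B).biUnion id) + 3 ≤ ((A ∪ B).biUnion id).card) :
    ((A ×ˢ B).filter fun p => (p.1 ∩ p.2).Nonempty).card + 1 ≤ A.card + B.card := by
  have h1 := meet_card hH hA hB hyA hzA hzB hyB
  have h2 := star_card hH hA hyA hAne
  have h3 := star_card hH hB hzB hBne
  have h4 : (A ∪ B).biUnion id = A.biUnion id ∪ B.biUnion id := by
    ext v; simp only [mem_biUnion, mem_union, id]; constructor
    · rintro ⟨f, hf | hf, hv⟩
      exacts [Or.inl ⟨f, hf, hv⟩, Or.inr ⟨f, hf, hv⟩]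
    · rintro (⟨f, hf, hv⟩ | ⟨f, hf, hv⟩)
      exacts [⟨f, Or.inl hf, hv⟩, ⟨f, Or.inr hf, hv⟩]
  have h5 := card_union_add_inter (A.biUnion id) (B.biUnion id)
  rw [← h4] at h5
  have hdis : Disjoint A B := by
    rw [disjoint_left]
    intro f hfA hfB
    exact hyB f hfB (hyA f hfA)
  have h6 : A.card + B.card ≤ e H ((A ∪ B).biUnion id) := by
    rw [← card_union_of_disjoint hdis]
    refine card_le_card fun f hf => ?_
    rw [mem_filter]
    refine ⟨(union_subset hA hB) hf, ?_⟩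
    exact subset_biUnion_of_mem id hf
  omega

end Pool.Agent.Lib.MP_c82047_co80.Cnt
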