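import Pool.Agent.Lib.MP_c82047_co80.Cnt.StepSums
import Pool.Agent.Lib.MP_c82047_co80.Cnt.StarCount

/-!
# One own step
-/

namespace Pool.Agent.Lib.MP_c82047_co80.Cnt

open Finset Pool.Agent.Lib.MP_c82047_co97

variable {V : Type*} [DecidableEq V]

/-- A loose triangle of `R`-cherries. -/
def Tr (R : Finset V → Finset V → Prop) (a b c : Finset V) : Prop :=
  R a b ∧ R a c ∧ R b c ∧ a ∩ b ∩ c = ∅

/-- A wheel: spokes `a b c`, rim `r`. -/
def Wh (R : Finset V → Finset V → Prop) (a b c r : Finset V) : Prop :=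
  (a ∩ b ∩ c).Nonempty ∧ Tr R a b r ∧ Tr R a c r ∧ Tr R b c r

open Classical in
/-- the number of ordered `R`-cherries in `E` -/
noncomputable def chN (R : Finset V → Finset V → Prop) (E : Finset (Finset V)) : ℤ :=
  ∑ a ∈ E, ∑ b ∈ E, if R a b then 1 else 0

open Classical in
/-- the number of ordered loose triangles in `E` -/
noncomputable def trN (R : Finset V → Finset V → Prop) (E : Finset (Finset V)) : ℤ :=
  ∑ a ∈ E, ∑ b ∈ E, ∑ c ∈ E, if Tr R a b c then 1 else 0

open Classical in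
/-- the number of ordered wheels in `E` -/
noncomputable def whN (R : Finset V → Finset V → Prop) (E : Finset (Finset V)) : ℤ :=
  ∑ a ∈ E, ∑ b ∈ E, ∑ c ∈ E, ∑ r ∈ E, if Wh R a b c r then 1 else 0

/-- The properties of the relation own cherry on the set `E` of triples. -/
structure Own (E : Finset (Finset V)) (R : Finset V → Finset V → Prop) : Prop where
  symm : ∀ a b, R a b → R b a
  mem : ∀ a b, R a b → a ∈ E
  ne : ∀ a b, R a b → a ≠ b
  meet : ∀ a b, R a b → (a ∩ b).Nonempty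
  tri : ∀ a b c, R a b → c ∈ E → (a ∩ c).Nonempty → (b ∩ c).Nonempty → a ∩ b ∩ c = ∅ → R a c

theorem Own.comm {H : Finset (Finset V)} {R : Finset V → Finset V → Prop} (h : Own H R)
    (a b : Finset V) : R a b ↔ R b a := ⟨h.symm a b, h.symm b a⟩

theorem Own.tr_comm12 {H : Finset (Finset V)} {R : Finset V → Finset V → Prop} (h : Own H R)
    (a b c : Finset V) : Tr R a b c ↔ Tr R b a c := by
  unfold Tr; rw [h.comm a b, inter_comm a b]; tauto

theorem Own.tr_comm23 {H : Finset (Finset V)} {R : Finset V → Finset V → Prop} (h : Own H R)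
    (a b c : Finset V) : Tr R a b c ↔ Tr R a c b := by
  unfold Tr; rw [h.comm b c, inter_right_comm a b c]; tauto

theorem Own.wh_comm12 {H : Finset (Finset V)} {R : Finset V → Finset V → Prop} (h : Own H R)
    (a b c r : Finset V) : Wh R a b c r ↔ Wh R b a c r := by
  unfold Wh; rw [inter_comm a b, h.tr_comm12 a b r]; tauto

theorem Own.wh_comm23 {H : Finset (Finset V)} {R : Finset V → Finset V → Prop} (h : Own H R)
    (a b c r : Finset V) : Wh R a b c r ↔ Wh R a c b r := by
  unfold Wh; rw [inter_right_comm a b c, h.tr_comm12 b c r]; tauto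


open Classical in
theorem step {H : Finset (Finset V)} (hH : Lin H) {R : Finset V → Finset V → Prop}
    {E : Finset (Finset V)} {e : Finset V} (hR : Own (insert e E) R) (hE : E ⊆ H) (he : e ∈ H)
    (heE : e ∉ E)
    {x y z : V} (hxe : e = {x, y, z}) (hyz : y ≠ z) (hx : ∀ f ∈ E, x ∉ f)
    (hex : ∃ f ∈ E, R e f)
    (hrec : ∀ f ∈ E, R e f → ∃ f' ∈ E, Tr R e f f')
    (hsp : ∀ F ⊆ E, 2 ≤ F.card →
      Pool.Agent.Lib.MP_c82047_co97.e H (F.biUnion id) + 3 ≤ (F.biUnion id).card) :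
    (3 * chN R E - 2 * trN R E + whN R E
      ≤ 3 * chN R (insert e E) - 2 * trN R (insert e E) + whN R (insert e E)) ∧
    (6 * chN R E - 3 * trN R E + whN R E + 6
      ≤ 6 * chN R (insert e E) - 3 * trN R (insert e E) + whN R (insert e E)) := by
  set F : Finset (Finset V) := E.filter (fun f => R e f) with hFdef
  set d : Finset V → ℕ := fun r => (E.filter (fun f => Tr R e r f)).card with hd
  have hye : y ∈ e := by rw [hxe]; simp
  have hze : z ∈ e := by rw [hxe]; simp
  -- one end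
  have hend : ∀ f ∈ E, R e f → (y ∈ f ∧ z ∉ f) ∨ (z ∈ f ∧ y ∉ f) := by
    intro f hf hef
    have hnot : ¬ (y ∈ f ∧ z ∈ f) := fun h =>
      heE ((lin_eq hH he (hE hf) hyz hye hze h.1 h.2) ▸ hf)
    obtain ⟨v, hv⟩ := hR.meet e f hef
    rw [mem_inter, hxe] at hv
    have hxf := hx f hf
    simp only [mem_insert, mem_singleton] at hv
    rcases hv with ⟨rfl | rfl | rfl, hvf⟩
    · exact absurd hvf hxf
    · exact Or.inl ⟨hvf, fun h => hnot ⟨hvf, h⟩⟩
    · exact Or.inr ⟨hvf, fun h => hnot ⟨h, hvf⟩⟩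
  -- triangles with `e`
  have htrF : ∀ r f, Tr R e r f → R e r := fun r f h => h.1
  have htr : ∀ r ∈ E, ∀ f ∈ E, R e r → R e f → (r ∩ f).Nonempty → e ∩ r ∩ f = ∅ →
      Tr R e r f := by
    intro r hr f hf h1 h2 h3 h4
    refine ⟨h1, h2, ?_, h4⟩
    have := hR.tri r e f (hR.symm _ _ h1) (mem_insert_of_mem hf) h3 (hR.meet _ _ h2)
      (by rw [inter_comm r e]; exact h4)
    exact this
  have c1 : chN R (insert e E) = chN R E + 2 * (F.card : ℤ) := by
    unfold chN
    rw [sum2_insert heE (fun a b => if R a b then (1 : ℤ) else 0)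
      (fun a b => by simp only [hR.comm a b]) (if_neg fun h => hR.ne _ _ h rfl)]
    rw [hFdef, card_filter]; push_cast; rfl
  have c2' : ∑ b ∈ E, ∑ c ∈ E, (if Tr R e b c then (1 : ℤ) else 0) = ∑ r ∈ F, (d r : ℤ) := by
    rw [hFdef, sum_filter]
    refine sum_congr rfl fun r hr => ?_
    split_ifs with h
    · rw [hd]; simp only [card_filter]; push_cast; rfl
    · exact sum_eq_zero fun c _ => if_neg fun h' => h h'.1
  have c2 : trN R (insert e E) = trN R E + 3 * ∑ r ∈ F, (d r : ℤ) := by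
    unfold trN
    rw [sum3_insert heE (fun a b c => if Tr R a b c then (1 : ℤ) else 0)
      (fun a b c => by simp only [hR.tr_comm12 a b c]) (fun a b c => by simp only [hR.tr_comm23 a b c])
      (fun a b => if_neg fun h => hR.ne _ _ h.1 rfl), c2']
  have c3 : whN R E + 3 * ∑ r ∈ F, ((d r : ℤ) * ((d r : ℤ) - 1)) ≤ whN R (insert e E) := by
    unfold whN
    have h1 := sum4_insert heE (fun a b c r => if Wh R a b c r then (1 : ℤ) else 0)
      (fun a b c r => by simp only [hR.wh_comm12 a b c r])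
      (fun a b c r => by simp only [hR.wh_comm23 a b c r])
      (fun a b r => if_neg fun h => hR.ne _ _ h.2.1.1 rfl)
      (fun a b c => if_neg fun h => hR.ne _ _ h.2.1.2.1 rfl)
      (fun a b c => by split_ifs <;> norm_num)
    refine le_trans ?_ h1
    have h2 : ∑ r ∈ F, ((d r : ℤ) * ((d r : ℤ) - 1))
        ≤ ∑ b ∈ E, ∑ c ∈ E, ∑ r ∈ E, (if Wh R e b c r then (1 : ℤ) else 0) := by
      have h3 : ∑ b ∈ E, ∑ c ∈ E, ∑ r ∈ E, (if Wh R e b c r then (1 : ℤ) else 0)
          = ∑ r ∈ E, ∑ b ∈ E, ∑ c ∈ E, (if Wh R e b c r then (1 : ℤ) else 0) := by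
        rw [sum_congr rfl fun b _ => sum_comm, sum_comm]
      rw [h3]
      have hFE : F ⊆ E := filter_subset _ _
      refine le_trans ?_ (sum_le_sum_of_subset_of_nonneg hFE
        fun r _ _ => sum_nonneg fun b _ => sum_nonneg fun c _ => by split_ifs <;> norm_num)
      refine sum_le_sum fun r hr => ?_
      rw [mem_filter] at hr
      set D : Finset (Finset V) := E.filter (fun f => Tr R e r f) with hD
      have h4 : ((d r : ℤ) * ((d r : ℤ) - 1)) = (D.offDiag.card : ℤ) := by
        rw [offDiag_card]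
        have : D.card ≤ D.card * D.card := Nat.le_mul_self _
        push_cast [Nat.cast_sub this]
        rw [hd]; ring
      have h6 : ∑ b ∈ E, ∑ c ∈ E, (if Wh R e b c r then (1 : ℤ) else 0)
          = (((E ×ˢ E).filter fun p => Wh R e p.1 p.2 r).card : ℤ) := by
        rw [card_filter, sum_product]; push_cast; rfl
      rw [h4, h6]
      norm_cast
      refine card_le_card fun p hp => ?_
      rw [mem_offDiag, hD, mem_filter, mem_filter] at hp
      obtain ⟨⟨hb, htb⟩, ⟨hc, htc⟩, hbc⟩ := hp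
      rw [mem_filter, mem_product]
      refine ⟨⟨hb, hc⟩, ?_⟩
      -- the common point of `e, b, c`
      have key : ∀ u w : V, u ∈ e → w ∈ e → u ∈ r → w ∉ r →
          (∀ f ∈ E, R e f → (u ∈ f ∧ w ∉ f) ∨ (w ∈ f ∧ u ∉ f)) → Wh R e p.1 p.2 r := by
        intro u w hue hwe hur hwr hend'
        have hwb : w ∈ p.1 := by
          rcases hend' p.1 hb htb.2.1 with h | h
          · exfalso
            have : u ∈ e ∩ r ∩ p.1 := by simp [hue, hur, h.1]
            rw [htb.2.2.2] at this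
            simp at this
          · exact h.1
        have hwc : w ∈ p.2 := by
          rcases hend' p.2 hc htc.2.1 with h | h
          · exfalso
            have : u ∈ e ∩ r ∩ p.2 := by simp [hue, hur, h.1]
            rw [htc.2.2.2] at this
            simp at this
          · exact h.1
        have hbcr : p.1 ∩ p.2 ∩ r = ∅ := by
          rw [eq_empty_iff_forall_notMem]
          intro v hv
          simp only [mem_inter] at hv
          have hvw : v ≠ w := fun h => hwr (h ▸ hv.2)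
          exact hbc (lin_eq hH (hE hb) (hE hc) hvw hv.1.1 hwb hv.1.2 hwc)
        have hRbc : R p.1 p.2 := by
          refine hR.tri p.1 r p.2 (hR.symm _ _ htb.2.2.1) (mem_insert_of_mem hc) ⟨w, by simp [hwb, hwc]⟩
            (hR.meet _ _ htc.2.2.1) ?_
          rw [inter_right_comm]; exact hbcr
        refine ⟨⟨w, by simp [hwe, hwb, hwc]⟩, (hR.tr_comm23 _ _ _).1 htb,
          (hR.tr_comm23 _ _ _).1 htc, hRbc, ?_, ?_, hbcr⟩
        · exact hR.symm _ _ htb.2.2.1
        · exact hR.symm _ _ htc.2.2.1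
      rcases hend r hr.1 hr.2 with h | h
      · exact key y z hye hze h.1 h.2 hend
      · exact key z y hze hye h.1 h.2 fun f hf hef => (hend f hf hef).symm
    linarith
  have c4 : ∀ r ∈ F, 1 ≤ d r := by
    intro r hr
    rw [hFdef, mem_filter] at hr
    obtain ⟨f', hf', h⟩ := hrec r hr.1 hr.2
    exact card_pos.2 ⟨f', by rw [mem_filter]; exact ⟨hf', h⟩⟩
  -- the two sides
  set A := F.filter (fun f => y ∈ f) with hA
  set B := F.filter (fun f => z ∈ f) with hB
  have hAmem : ∀ f, f ∈ A ↔ f ∈ E ∧ R e f ∧ y ∈ f := by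
    intro f; rw [hA, hFdef, mem_filter, mem_filter]; tauto
  have hBmem : ∀ f, f ∈ B ↔ f ∈ E ∧ R e f ∧ z ∈ f := by
    intro f; rw [hB, hFdef, mem_filter, mem_filter]; tauto
  have hzA : ∀ f ∈ A, z ∉ f := by
    intro f hf
    rw [hAmem] at hf
    rcases hend f hf.1 hf.2.1 with h | h
    · exact h.2
    · exact absurd hf.2.2 h.2
  have hyB : ∀ f ∈ B, y ∉ f := by
    intro f hf
    rw [hBmem] at hf
    rcases hend f hf.1 hf.2.1 with h | h
    · exact absurd hf.2.2 h.2
    · exact h.2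
  have hdis : Disjoint A B := by
    rw [disjoint_left]; intro f hfA hfB
    exact hzA f hfA ((hBmem f).1 hfB).2.2
  have hAB : A ∪ B = F := by
    ext f
    rw [mem_union, hAmem, hBmem, hFdef, mem_filter]
    constructor
    · rintro (h | h) <;> exact ⟨h.1, h.2.1⟩
    · intro h
      rcases hend f h.1 h.2 with h' | h'
      · exact Or.inl ⟨h.1, h.2, h'.1⟩
      · exact Or.inr ⟨h.1, h.2, h'.1⟩
  have hcard : A.card + B.card = F.card := by rw [← hAB, card_union_of_disjoint hdis]
  have trA : ∀ r ∈ A, ∀ f ∈ E, Tr R e r f ↔ (f ∈ B ∧ (r ∩ f).Nonempty) := by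
    intro r hr f hf
    have hr' := (hAmem r).1 hr
    constructor
    · intro h
      refine ⟨(hBmem f).2 ⟨hf, h.2.1, ?_⟩, hR.meet _ _ h.2.2.1⟩
      rcases hend f hf h.2.1 with h' | h'
      · exfalso
        have : y ∈ e ∩ r ∩ f := by simp [hye, hr'.2.2, h'.1]
        rw [h.2.2.2] at this
        simp at this
      · exact h'.1
    · rintro ⟨hfB, hne⟩
      have hf' := (hBmem f).1 hfB
      refine htr r hr'.1 f hf hr'.2.1 hf'.2.1 hne ?_
      rw [eq_empty_iff_forall_notMem]
      intro v hv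
      simp only [mem_inter] at hv
      have h1 : v ≠ y := fun h => hyB f hfB (h ▸ hv.2)
      exact heE ((lin_eq hH he (hE hr'.1) h1 hv.1.1 hye hv.1.2 hr'.2.2) ▸ hr'.1)
  have trB : ∀ r ∈ B, ∀ f ∈ E, Tr R e r f ↔ (f ∈ A ∧ (f ∩ r).Nonempty) := by
    intro r hr f hf
    have hr' := (hBmem r).1 hr
    constructor
    · intro h
      refine ⟨(hAmem f).2 ⟨hf, h.2.1, ?_⟩, by rw [inter_comm]; exact hR.meet _ _ h.2.2.1⟩
      rcases hend f hf h.2.1 with h' | h'
      · exact h'.1
      · exfalso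
        have : z ∈ e ∩ r ∩ f := by simp [hze, hr'.2.2, h'.1]
        rw [h.2.2.2] at this
        simp at this
    · rintro ⟨hfA, hne⟩
      exact (hR.tr_comm23 _ _ _).1 ((trA f hfA r hr'.1).2 ⟨hr, hne⟩)
  set p : ℕ := ((A ×ˢ B).filter fun q => (q.1 ∩ q.2).Nonempty).card with hp
  have hsum1 : ∑ r ∈ A, d r = p := by
    rw [hp, card_filter, sum_product]
    refine sum_congr rfl fun r hr => ?_
    rw [← card_filter]
    simp only [hd]
    congr 1
    ext f
    rw [mem_filter, mem_filter]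
    constructor
    · rintro ⟨h1, h2⟩
      exact (trA r hr f h1).1 h2
    · rintro ⟨h1, h2⟩
      have := ((hBmem f).1 h1).1
      exact ⟨this, (trA r hr f this).2 ⟨h1, h2⟩⟩
  have hsum2 : ∑ r ∈ B, d r = p := by
    rw [hp, card_filter, sum_product_right]
    refine sum_congr rfl fun r hr => ?_
    rw [← card_filter]
    simp only [hd]
    congr 1
    ext f
    rw [mem_filter, mem_filter]
    constructor
    · rintro ⟨h1, h2⟩
      exact (trB r hr f h1).1 h2
    · rintro ⟨h1, h2⟩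
      have := ((hAmem f).1 h1).1
      exact ⟨this, (trB r hr f this).2 ⟨h1, h2⟩⟩
  have hsum : ∑ r ∈ F, d r = 2 * p := by
    rw [← hAB, sum_union hdis, hsum1, hsum2]; ring
  -- both sides are nonempty
  obtain ⟨f0, hf0, hef0⟩ := hex
  obtain ⟨f1, hf1, ht⟩ := hrec f0 hf0 hef0
  have hne : A.Nonempty ∧ B.Nonempty := by
    rcases hend f0 hf0 hef0 with h | h
    · have hA0 : f0 ∈ A := (hAmem f0).2 ⟨hf0, hef0, h.1⟩
      exact ⟨⟨f0, hA0⟩, ⟨f1, ((trA f0 hA0 f1 hf1).1 ht).1⟩⟩
    · have hB0 : f0 ∈ B := (hBmem f0).2 ⟨hf0, hef0, h.1⟩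
      exact ⟨⟨f1, ((trB f0 hB0 f1 hf1).1 ht).1⟩, ⟨f0, hB0⟩⟩
  have hAE : A ⊆ E := fun f hf => ((hAmem f).1 hf).1
  have hBE : B ⊆ E := fun f hf => ((hBmem f).1 hf).1
  have hp1 : p + 1 ≤ F.card := by
    rw [← hcard]
    refine meet_lt hH (hAE.trans hE) (hBE.trans hE) (fun f hf => ((hAmem f).1 hf).2.2) hzA
      (fun f hf => ((hBmem f).1 hf).2.2) hyB hne.1 hne.2
      (hsp _ (union_subset hAE hBE) ?_)
    rw [card_union_of_disjoint hdis]
    have := hne.1.card_pos
    have := hne.2.card_pos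
    omega
  have hsumZ : ∑ r ∈ F, (d r : ℤ) = 2 * (p : ℤ) := by exact_mod_cast hsum
  have hp1Z : (p : ℤ) + 1 ≤ F.card := by exact_mod_cast hp1
  have q1 : 0 ≤ ∑ r ∈ F, (((d r : ℤ) - 1) * ((d r : ℤ) - 2)) := by
    refine sum_nonneg fun r hr => ?_
    have h1 := c4 r hr
    rcases Nat.lt_or_ge (d r) 2 with h2 | h2
    · have : d r = 1 := by omega
      rw [this]; norm_num
    · have h3 : (2 : ℤ) ≤ d r := by exact_mod_cast h2
      nlinarith
  have q2 : ∑ r ∈ F, (((d r : ℤ) - 1) * ((d r : ℤ) - 2))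
      = ∑ r ∈ F, ((d r : ℤ) * ((d r : ℤ) - 1)) - 2 * ∑ r ∈ F, (d r : ℤ) + 2 * F.card := by
    rw [mul_sum, ← sum_sub_distrib]
    have : (2 : ℤ) * F.card = ∑ _r ∈ F, 2 := by rw [sum_const]; simp [mul_comm]
    rw [this, ← sum_add_distrib]
    exact sum_congr rfl fun r _ => by ring
  constructor
  · rw [c1, c2]; nlinarith
  · rw [c1, c2]; nlinarith

end Pool.Agent.Lib.MP_c82047_co80.Cnt
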