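import Mathlib

/-!
# Sums over pairs, triples and quadruples of members of `insert e E`
-/

namespace Pool.Agent.Lib.MP_c82047_co80.Cnt

open Finset

variable {α : Type*} [DecidableEq α]

theorem sum2_insert {e : α} {E : Finset α} (he : e ∉ E) (t : α → α → ℤ)
    (hsym : ∀ a b, t a b = t b a) (h0 : t e e = 0) :
    ∑ a ∈ insert e E, ∑ b ∈ insert e E, t a b
      = ∑ a ∈ E, ∑ b ∈ E, t a b + 2 * ∑ b ∈ E, t e b := by
  simp only [sum_insert he, h0, sum_add_distrib]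
  have : ∑ a ∈ E, t a e = ∑ a ∈ E, t e a := sum_congr rfl fun a _ => hsym a e
  rw [this]; ring

theorem sum3_insert {e : α} {E : Finset α} (he : e ∉ E) (t : α → α → α → ℤ)
    (hsym1 : ∀ a b c, t a b c = t b a c) (hsym2 : ∀ a b c, t a b c = t a c b)
    (h0 : ∀ a b, t a a b = 0) :
    ∑ a ∈ insert e E, ∑ b ∈ insert e E, ∑ c ∈ insert e E, t a b c
      = ∑ a ∈ E, ∑ b ∈ E, ∑ c ∈ E, t a b c + 3 * ∑ b ∈ E, ∑ c ∈ E, t e b c := by
  have h1 : ∀ b, t e b e = 0 := fun b => by rw [hsym2, h0]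
  have h2 : ∀ b, t b e e = 0 := fun b => by rw [hsym1, hsym2, h0]
  simp only [sum_insert he, h0, h1, h2, sum_add_distrib, sum_const_zero, zero_add]
  have e1 : ∑ a ∈ E, ∑ c ∈ E, t a e c = ∑ a ∈ E, ∑ c ∈ E, t e a c :=
    sum_congr rfl fun a _ => sum_congr rfl fun c _ => hsym1 a e c
  have e2 : ∑ a ∈ E, ∑ c ∈ E, t a c e = ∑ a ∈ E, ∑ c ∈ E, t e a c :=
    sum_congr rfl fun a _ => sum_congr rfl fun c _ => by rw [hsym2, hsym1]
  rw [e1, e2]; ring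

theorem sum4_insert {e : α} {E : Finset α} (he : e ∉ E) (w : α → α → α → α → ℤ)
    (hsym1 : ∀ a b c r, w a b c r = w b a c r) (hsym2 : ∀ a b c r, w a b c r = w a c b r)
    (h0 : ∀ a b r, w a a b r = 0) (h1 : ∀ a b c, w a b c a = 0)
    (hnn : ∀ a b c, 0 ≤ w a b c e) :
    ∑ a ∈ E, ∑ b ∈ E, ∑ c ∈ E, ∑ r ∈ E, w a b c r + 3 * ∑ b ∈ E, ∑ c ∈ E, ∑ r ∈ E, w e b c r
      ≤ ∑ a ∈ insert e E, ∑ b ∈ insert e E, ∑ c ∈ insert e E, ∑ r ∈ insert e E, w a b c r := by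
  have h3 := sum3_insert he (fun a b c => ∑ r ∈ insert e E, w a b c r)
    (fun a b c => sum_congr rfl fun r _ => hsym1 a b c r)
    (fun a b c => sum_congr rfl fun r _ => hsym2 a b c r)
    (fun a b => sum_eq_zero fun r _ => h0 a b r)
  rw [h3]
  simp only [sum_insert he, h1, zero_add, sum_add_distrib]
  have : 0 ≤ ∑ a ∈ E, ∑ b ∈ E, ∑ c ∈ E, w a b c e :=
    sum_nonneg fun a _ => sum_nonneg fun b _ => sum_nonneg fun c _ => hnn a b c
  linarith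

end Pool.Agent.Lib.MP_c82047_co80.Cnt
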